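import Mathlib
import Pool.Agent.TH461.AL.Dec2

/-!
# Decimal words in all long windows of `2 ^ n` for almost all `n`

For `u, v ≥ 2` coprime (such as `u = 2`, `v = 5`) and `a ≥ 1`: for all but `δ M` of any `M`
consecutive exponents `n`, every word of `k` digits in base `u v` occurs at least `M ^ (1 - ε)` times
in every long window of the digits of `a u ^ n`.
-/

set_option autoImplicit false

open Filter Topology

namespace Pool.Agent.Results.MP_a25450_nt.WordsInPowersOfTwo

open Classical in
/-- Let `u, v ≥ 2` be coprime (for instance `u = 2`, `v = 5`), `b = u v`, `a ≥ 1`, and `k`,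
`ε, δ, η > 0`.  There is `M0` such that for all `M ≥ M0` and all `J`, for all but at most `δ M` of
the exponents `n = J + t`, `t < M`: for every window `s, …, s + l - 1` of places of the base `b`
expansion of `a u ^ n` (counted from the right, `s + l` at most the number of digits) of length
`l ≥ η (J + M)` and for every word of `k` digits (the word with value `W < b ^ k`, with leading
zeros), this word occurs in the window at least `M ^ (1 - ε)` times: its last digit is at place `i`,
its first digit at place `i + k - 1`. -/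
theorem result (u v : ℕ) (hu : 2 ≤ u) (hv : 2 ≤ v) (hco : Nat.Coprime u v) (a : ℕ) (ha : 1 ≤ a)
    (k : ℕ) (ε δ η : ℝ) (hε : 0 < ε) (hδ : 0 < δ) (hη : 0 < η) :
    ∃ M0 : ℕ, ∀ M : ℕ, M0 ≤ M → ∀ J : ℕ,
      (((Finset.range M).filter (fun t : ℕ => ¬ ∀ s l : ℕ,
        s + l ≤ (Nat.digits (u * v) (a * u ^ (J + t))).length → η * ((J : ℝ) + M) ≤ l →
          ∀ W < (u * v) ^ k, (M : ℝ) ^ (1 - ε) ≤
            (((Finset.range (s + l)).filter (fun i : ℕ => s ≤ i ∧ i + k ≤ s + l ∧
              a * u ^ (J + t) / (u * v) ^ i % (u * v) ^ k = W)).card : ℝ))).card : ℝ) ≤ δ * M :=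
  Pool.Agent.TH461.AL.Dec2.pow_windows hu hv hco ha k hε hδ hη

end Pool.Agent.Results.MP_a25450_nt.WordsInPowersOfTwo
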